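import Pool.Agent.H56.HM.Shift

/-!
MP_2feeed_co: monotonicity in `n` when one more point is allowed in the open cups.
-/

set_option autoImplicit false

namespace Pool.Agent.Results.MP_2feeed_co.ShiftedCups

open Pool.Agent.H56.HM

/-- The largest number of `k`-holes of an `n`-point set in general position without a `(k+1)`-hole
and without an open `r`-cup. For `r = 4` this is `h''_k(n)`. -/
noncomputable def hc (r k n : ℕ) : ℕ :=
  sSup {m | ∃ P, Adm k n P ∧ (∀ X, IsOpenCup P X → X.card ≠ r) ∧ (holes k P).card = m}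

/-- For `r = 4` this is the function of Q2. -/
lemma hc_four (k n : ℕ) : hc 4 k n = h2 k n := rfl

/-- **Shifted monotonicity, for all `n`.** For `3 ≤ r ≤ k - 2` and every `n`, the maximum over the
`n`-point sets without open `r`-cup is at most the maximum over the `(n+1)`-point sets without open
`(r+1)`-cup. -/
theorem result (r k n : ℕ) (hr : 3 ≤ r) (hrk : r + 2 ≤ k) : hc r k n ≤ hc (r + 1) k (n + 1) := by
  unfold hc
  by_cases hne : {m | ∃ P, Adm k n P ∧ (∀ X, IsOpenCup P X → X.card ≠ r) ∧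
      (holes k P).card = m}.Nonempty
  · refine csSup_le hne ?_
    rintro m ⟨P, hP, hcup, rfl⟩
    obtain ⟨Q, hQ, hQc, hle⟩ := adm_shift (by omega) hrk hP hcup
    refine hle.trans (le_csSup ?_ ⟨Q, hQ, hQc, rfl⟩)
    refine (bdd k (n + 1)).mono ?_
    rintro m ⟨P, hP, _, hm⟩
    exact ⟨P, hP, hm⟩
  · rw [Set.not_nonempty_iff_eq_empty.1 hne]
    simp

/-- The case `r = 4`: `h''_k(n) ≤ h'_k(n+1)` for all `k ≥ 6` and all `n`. -/
theorem h2_le_h1 (k n : ℕ) (hk : 6 ≤ k) : h2 k n ≤ h1 k (n + 1) := by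
  refine (result 4 k n (by norm_num) (by omega)).trans ?_
  unfold hc h1
  by_cases hne : {m | ∃ P, Adm k (n + 1) P ∧ (∀ X, IsOpenCup P X → X.card ≠ 4 + 1) ∧
      (holes k P).card = m}.Nonempty
  · refine csSup_le_csSup (bdd k (n + 1)) hne ?_
    rintro m ⟨P, hP, _, hm⟩
    exact ⟨P, hP, hm⟩
  · rw [Set.not_nonempty_iff_eq_empty.1 hne]
    simp

end Pool.Agent.Results.MP_2feeed_co.ShiftedCups
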