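import Pool.Agent.H56.HM.Sup

/-!
MP_2feeed_co, Q1 for `k < n ≤ 3 k - 7`: if an `n`-point set in general position has no `(k+1)`-hole,
then some `(n+1)`-point set without a `(k+1)`-hole has at least as many `k`-holes.
-/

set_option autoImplicit false

namespace Pool.Agent.Results.MP_2feeed_co.SmallSets

open Pool.Agent.H56.HM Pool.Agent.H2.HM

/-- **Q1 for `n ≤ 3 k - 7`.** For all `k ≥ 6` and all `n` with `k < n ≤ 3 k - 7`,
`h'_k(n) ≤ h'_k(n+1)`. -/
theorem result (k n : ℕ) (_hk : 6 ≤ k) (_hkn : k < n) (hn : n + 7 ≤ 3 * k) :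
    h1 k n ≤ h1 k (n + 1) := by
  unfold h1
  by_cases hne : {m | ∃ P, Adm k n P ∧ (holes k P).card = m}.Nonempty
  · refine csSup_le hne ?_
    rintro m ⟨P, hP, rfl⟩
    obtain ⟨u, hu0, hu, hop⟩ := exists_dir P ((genPos_iff P).1 hP.2.1) k (by rw [hP.1]; exact hn)
    obtain ⟨Q, hQ, hle⟩ := adm_insert hP hu0 hu hop
    exact hle.trans (le_csSup (bdd k (n + 1)) ⟨Q, hQ, rfl⟩)
  · rw [Set.not_nonempty_iff_eq_empty.1 hne]
    simp

end Pool.Agent.Results.MP_2feeed_co.SmallSets
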